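import Pool.Agent.Lib.MP_0bc52e_nt.G.Afin
import Pool.Agent.Lib.MP_0bc52e_nt.K.P.alv
import Pool.Agent.Lib.MP_0bc52e_nt.K.P.orig
import Pool.Agent.Lib.MP_0bc52e_nt.T.P.fr1
import Pool.Agent.Lib.MP_0bc52e_nt.T.P.fr2
import Pool.Agent.Lib.MP_0bc52e_nt.R.StmR
import Pool.Agent.Lib.MP_0bc52e_nt.R.All

/-!
# From dead residues to the absence of polytopes, with a side condition (MP_0bc52e_nt)
-/

namespace Pool.Agent.Lib.MP_0bc52e_nt.G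

open Pool.Agent.Lib.MP_0bc52e_nt.LC Pool.Agent.Lib.MP_0bc52e_nt.T Pool.Agent.Lib.MP_0bc52e_nt.R
  Pool.Agent.Lib.MP_0bc52e_nt.K

theorem g_fin {NG : Set (ℝ × ℝ × ℝ) → Prop} (hNG : FrI NG) (p : ℕ) (hD : DeadG NG p)
    (P : Set (ℝ × ℝ × ℝ)) (hP : IsLP3 P) (hPC : PC3 P) (hH : ¬ T.Hollow P) (hN : NG P) :
    ¬ Cr P p := by
  intro hCr
  obtain ⟨hD1, hD2, hD3⟩ := hD
  have hin : ∃ v : ℤ × ℤ × ℤ, Inn P (ip v) := by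
    by_contra h
    push Not at h
    exact hH h
  obtain ⟨f, hf, hroot⟩ := R.q_roots P hP hin
  obtain ⟨h1, h2, h3, h4, -, -, -⟩ := T.p_fr2 T.p_fr1 f hf P
  have hQ : IsLP3 (f ⁻¹' P) := h2 hP
  have hconv : Convex ℝ (f ⁻¹' P) := by
    obtain ⟨V, hV⟩ := hQ
    rw [hV]
    exact convex_convexHull ℝ _
  have hroot' : (∃ R ∈ Theta, ∀ v ∈ R, ip v ∈ f ⁻¹' P) ∨ (∃ R ∈ Beta, ∀ v ∈ R, ip v ∈ f ⁻¹' P) ∨
      ∃ b : Fin 3, ∀ v ∈ Base b, ip v ∈ f ⁻¹' P := by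
    rcases hroot with h | h | ⟨b, h, -, -⟩
    · exact Or.inl h
    · exact Or.inr (Or.inl h)
    · exact Or.inr (Or.inr ⟨b, h⟩)
  have h0 := p_orig _ hconv hroot'
  have hPP : PP0 (f ⁻¹' P) := ⟨hQ, h3 hPC, h0⟩
  have hNN := hNG f hf P hN
  obtain ⟨u, hu⟩ := p_alv _ p (h4 p hCr)
  rcases hroot with ⟨R, hR, h⟩ | ⟨R, hR, h⟩ | ⟨b, h, hx, hy⟩
  · refine hD1 R hR u _ ⟨hPP, hNN⟩ ?_ hu
    intro v hv
    obtain ⟨w, hw, rfl⟩ := List.mem_map.mp hv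
    exact h w hw
  · refine hD2 R hR u _ ⟨hPP, hNN⟩ ?_ hu
    intro v hv
    obtain ⟨w, hw, rfl⟩ := List.mem_map.mp hv
    exact h w hw
  · obtain ⟨ha, hb, hc⟩ := hD3 b
    exact g_Afin hNG b p _ hPP hNN h hx hy ha hb hc u hu

end Pool.Agent.Lib.MP_0bc52e_nt.G
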