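import Pool.Agent.Lib.MP_0bc52e_nt.G.Defs
import Pool.Agent.Lib.MP_0bc52e_nt.K.P.frQ
import Pool.Agent.Lib.MP_0bc52e_nt.K.P.frH
import Pool.Agent.Lib.MP_0bc52e_nt.K.P.frU

/-!
# The planar roots, for classes with a side condition (MP_0bc52e_nt)
-/

set_option autoImplicit false

namespace Pool.Agent.Lib.MP_0bc52e_nt.G

open Pool.Agent.Lib.MP_0bc52e_nt.LC Pool.Agent.Lib.MP_0bc52e_nt.T Pool.Agent.Lib.MP_0bc52e_nt.R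
  Pool.Agent.Lib.MP_0bc52e_nt.K

private theorem p_Afin_sq {s a c : ℤ} (hs : s = 1 ∨ s = -1) (h : a = s * c) : c = s * a := by
  rcases hs with rfl | rfl <;> linarith

/-- the preimage under a frame -/
private theorem p_Afin_pre {NG : Set (ℝ × ℝ × ℝ) → Prop} (hNG : FrI NG) (s : ℤ) (hs : s = 1 ∨ s = -1) (p : ℤ)
    (Q : Set (ℝ × ℝ × ℝ)) (hQ : PP0 Q) (hN : NG Q) (u : ℤ × ℤ × ℤ) (hu : Alv Q p u)
    (f : ℝ × ℝ × ℝ → ℝ × ℝ × ℝ) (hf : IsFr f) (h0 : f (ip (0, 0, 0)) = ip (0, 0, 0))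
    (hlev : ∀ u w : ℤ × ℤ × ℤ, f (ip w) = ip u → u.2.2 = s * w.2.2)
    (hsurj : ∀ u : ℤ × ℤ × ℤ, ∃ w : ℤ × ℤ × ℤ, f (ip w) = ip u) :
    PP0 (f ⁻¹' Q) ∧ NG (f ⁻¹' Q) ∧ ∃ w1 w2 : ℤ, Alv (f ⁻¹' Q) p (w1, w2, s * u.2.2) := by
  obtain ⟨h1, h2⟩ := p_frQ f hf h0 Q
  refine ⟨h1 hQ, hNG f hf Q hN, ?_⟩
  obtain ⟨w, hw⟩ := hsurj u
  have h3 := p_Afin_sq hs (hlev u w hw)
  refine ⟨w.1, w.2.1, ?_⟩
  rw [← h3]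
  exact h2 p u w hw hu

private theorem p_Afin_a {NG : Set (ℝ × ℝ × ℝ) → Prop} (hNG : FrI NG) (s : ℤ) (hs : s = 1 ∨ s = -1) (p : ℤ)
    (Q : Set (ℝ × ℝ × ℝ)) (hQ : PP0 Q) (hN : NG Q) (u : ℤ × ℤ × ℤ) (hu : Alv Q p u)
    (f : ℝ × ℝ × ℝ → ℝ × ℝ × ℝ) (hf : IsFr f) (h0 : f (ip (0, 0, 0)) = ip (0, 0, 0))
    (hlev : ∀ u w : ℤ × ℤ × ℤ, f (ip w) = ip u → u.2.2 = s * w.2.2)
    (hsurj : ∀ u : ℤ × ℤ × ℤ, ∃ w : ℤ × ℤ × ℤ, f (ip w) = ip u)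
    (V : List P3) (hV : ∀ v ∈ V, f (ip v.v) ∈ Q) (y : ℤ × ℤ × ℤ) (hy : ip y ∈ Q)
    (hys : y.2.2 = -s) (hS : Sd (Sc NG PP1) p V (s * u.2.2)) : False := by
  obtain ⟨h1, hN1, w1, w2, hw⟩ := p_Afin_pre hNG s hs p Q hQ hN u hu f hf h0 hlev hsurj
  obtain ⟨z, hz⟩ := hsurj y
  have h3 := p_Afin_sq hs (hlev y z hz)
  have h4 : z.2.2 = -1 := by
    rw [h3, hys]
    rcases hs with rfl | rfl <;> norm_num
  have h5 : ip (z.1, z.2.1, -1) ∈ f ⁻¹' Q := by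
    rw [← h4]
    show f (ip z) ∈ Q
    rw [hz]
    exact hy
  exact hS w1 w2 (f ⁻¹' Q) ⟨⟨h1, z.1, z.2.1, h5⟩, hN1⟩ hV hw

private theorem p_Afin_b {NG : Set (ℝ × ℝ × ℝ) → Prop} (hNG : FrI NG) (b : Fin 3) (s : ℤ) (hs : s = 1 ∨ s = -1) (p : ℤ)
    (Q : Set (ℝ × ℝ × ℝ)) (hQ : PP0 Q) (hN : NG Q) (u : ℤ × ℤ × ℤ) (hu : Alv Q p u)
    (f : ℝ × ℝ × ℝ → ℝ × ℝ × ℝ) (hf : IsFr f) (h0 : f (ip (0, 0, 0)) = ip (0, 0, 0))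
    (hlev : ∀ u w : ℤ × ℤ × ℤ, f (ip w) = ip u → u.2.2 = s * w.2.2)
    (hsurj : ∀ u : ℤ × ℤ × ℤ, ∃ w : ℤ × ℤ × ℤ, f (ip w) = ip u)
    (hho : ∀ y w : ℤ × ℤ × ℤ, f (ip w) = ip y → Ho b (y.1, y.2.1, s * y.2.2) → Ho b w)
    (V : List P3) (hV : ∀ v ∈ V, f (ip v.v) ∈ Q) (y : ℤ × ℤ × ℤ) (hy : ip y ∈ Q)
    (hys : Ho b (y.1, y.2.1, s * y.2.2)) (hS : Sd (Sc NG (PPh b)) p V (s * u.2.2)) : False := by
  obtain ⟨h1, hN1, w1, w2, hw⟩ := p_Afin_pre hNG s hs p Q hQ hN u hu f hf h0 hlev hsurj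
  obtain ⟨z, hz⟩ := hsurj y
  have h5 : ip z ∈ f ⁻¹' Q := by
    show f (ip z) ∈ Q
    rw [hz]
    exact hy
  exact hS w1 w2 (f ⁻¹' Q) ⟨⟨h1, z, hho y z hz hys, h5⟩, hN1⟩ hV hw

private theorem p_Afin_Vv (v : ℤ × ℤ × ℤ) : (toP v).v = v := rfl

private theorem p_Afin_VU (b : Fin 3) (Q : Set (ℝ × ℝ × ℝ)) (hB : ∀ v ∈ Base b, ip v ∈ Q)
    (x : ℤ × ℤ × ℤ) (hx : ip x ∈ Q) (f : ℝ × ℝ × ℝ → ℝ × ℝ × ℝ)
    (h1 : ∀ v ∈ Base b, f (ip v) = ip v) (h2 : f (ip (0, 0, 1)) = ip x) :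
    ∀ v ∈ VU b, f (ip v.v) ∈ Q := by
  intro v hv
  unfold VU at hv
  rw [List.mem_map] at hv
  obtain ⟨w, hw, rfl⟩ := hv
  rw [p_Afin_Vv]
  rw [List.mem_append, List.mem_singleton] at hw
  rcases hw with hw | rfl
  · rw [h1 w hw]
    exact hB w hw
  · rw [h2]
    exact hx

private theorem p_Afin_VH (b : Fin 3) (Q : Set (ℝ × ℝ × ℝ)) (hB : ∀ v ∈ Base b, ip v ∈ Q)
    (x : ℤ × ℤ × ℤ) (hx : ip x ∈ Q) (f : ℝ × ℝ × ℝ → ℝ × ℝ × ℝ)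
    (h1 : ∀ v ∈ Base b, ∃ w ∈ Base b, f (ip v) = ip w) (h2 : f (ip (hp b)) = ip x) :
    ∀ v ∈ VH b, f (ip v.v) ∈ Q := by
  intro v hv
  unfold VH at hv
  rw [List.mem_map] at hv
  obtain ⟨w, hw, rfl⟩ := hv
  rw [p_Afin_Vv]
  rw [List.mem_append, List.mem_singleton] at hw
  rcases hw with hw | rfl
  · obtain ⟨w', hw', he⟩ := h1 w hw
    rw [he]
    exact hB w' hw'
  · rw [h2]
    exact hx

private theorem p_Afin_Ho1 (b : Fin 3) (x : ℤ × ℤ × ℤ) (h : Hl b x 1) :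
    x.2.2 = 1 ∨ Ho b (x.1, x.2.1, -1 * x.2.2) := by
  rcases h with h | ⟨h1, h2, h3⟩ | ⟨h1, h2, h3⟩ | ⟨h1, h2, h3⟩
  · exact Or.inl h
  · exact Or.inr (Or.inl ⟨h1, by show -1 * x.2.2 = -3; omega, h3⟩)
  · exact Or.inr (Or.inr (Or.inl ⟨h1, by show -1 * x.2.2 = -2; omega, h3⟩))
  · exact Or.inr (Or.inr (Or.inr ⟨h1, by show -1 * x.2.2 = -2; omega, h3⟩))

private theorem p_Afin_Ho2 (b : Fin 3) (y : ℤ × ℤ × ℤ) (h : Hl b y (-1)) :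
    y.2.2 = -1 ∨ Ho b (y.1, y.2.1, 1 * y.2.2) := by
  rcases h with h | ⟨h1, h2, h3⟩ | ⟨h1, h2, h3⟩ | ⟨h1, h2, h3⟩
  · exact Or.inl h
  · exact Or.inr (Or.inl ⟨h1, by show 1 * y.2.2 = -3; omega, h3⟩)
  · exact Or.inr (Or.inr (Or.inl ⟨h1, by show 1 * y.2.2 = -2; omega, h3⟩))
  · exact Or.inr (Or.inr (Or.inr ⟨h1, by show 1 * y.2.2 = -2; omega, h3⟩))

/-- The planar roots. -/
theorem g_Afin {NG : Set (ℝ × ℝ × ℝ) → Prop} (hNG : FrI NG) (b : Fin 3) (p : ℤ) (Q : Set (ℝ × ℝ × ℝ))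
    (hQ : PP0 Q) (hN : NG Q) (hB : ∀ v ∈ Base b, ip v ∈ Q) (hx : ∃ x, Hl b x 1 ∧ ip x ∈ Q)
    (hy : ∃ y, Hl b y (-1) ∧ ip y ∈ Q)
    (H1 : ∀ r, Sd (Sc NG PP1) p (VU b) r ∨ Sd (Sc NG PP1) p (VU b) (-r))
    (H2 : ∀ r, Sd (Sc NG (PPh b)) p (VU b) r ∨ Sd (Sc NG PP1) p (VH b) (-r))
    (H3 : ∀ r, Sd (Sc NG (PPh b)) p (VH b) r ∨ Sd (Sc NG (PPh b)) p (VH b) (-r)) :
    ∀ u, ¬ Alv Q p u := by
  intro u hu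
  obtain ⟨x, hx, hxQ⟩ := hx
  obtain ⟨y, hy, hyQ⟩ := hy
  have e1 : (1 : ℤ) * u.2.2 = u.2.2 := one_mul _
  have e2 : (-1 : ℤ) * u.2.2 = -u.2.2 := by ring
  rcases p_Afin_Ho1 b x hx with hx | hx <;> rcases p_Afin_Ho2 b y hy with hy | hy
  · rcases H1 u.2.2 with h | h
    · obtain ⟨f, hf, h0, hb, ht, hlev, hsurj, hho⟩ := p_frU b 1 x (Or.inl rfl) hx
      exact p_Afin_a hNG 1 (Or.inl rfl) p Q hQ hN u hu f hf h0 hlev hsurj _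
        (p_Afin_VU b Q hB x hxQ f hb ht) y hyQ hy (by rw [e1]; exact h)
    · obtain ⟨f, hf, h0, hb, ht, hlev, hsurj, hho⟩ := p_frU b (-1) y (Or.inr rfl) hy
      exact p_Afin_a hNG (-1) (Or.inr rfl) p Q hQ hN u hu f hf h0 hlev hsurj _
        (p_Afin_VU b Q hB y hyQ f hb ht) x hxQ (by rw [hx]; norm_num) (by rw [e2]; exact h)
  · rcases H2 u.2.2 with h | h
    · obtain ⟨f, hf, h0, hb, ht, hlev, hsurj, hho⟩ := p_frU b 1 x (Or.inl rfl) hx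
      exact p_Afin_b hNG b 1 (Or.inl rfl) p Q hQ hN u hu f hf h0 hlev hsurj hho _
        (p_Afin_VU b Q hB x hxQ f hb ht) y hyQ hy (by rw [e1]; exact h)
    · obtain ⟨f, hf, h0, hb, ht, hlev, hsurj, hho⟩ := p_frH b (-1) y (Or.inr rfl)
        (by rw [neg_neg]; exact hy)
      exact p_Afin_a hNG (-1) (Or.inr rfl) p Q hQ hN u hu f hf h0 hlev hsurj _
        (p_Afin_VH b Q hB y hyQ f hb ht) x hxQ (by rw [hx]; norm_num) (by rw [e2]; exact h)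
  · rcases H2 (-u.2.2) with h | h
    · obtain ⟨f, hf, h0, hb, ht, hlev, hsurj, hho⟩ := p_frU b (-1) y (Or.inr rfl) hy
      exact p_Afin_b hNG b (-1) (Or.inr rfl) p Q hQ hN u hu f hf h0 hlev hsurj hho _
        (p_Afin_VU b Q hB y hyQ f hb ht) x hxQ hx (by rw [e2]; exact h)
    · rw [neg_neg] at h
      obtain ⟨f, hf, h0, hb, ht, hlev, hsurj, hho⟩ := p_frH b 1 x (Or.inl rfl) hx
      exact p_Afin_a hNG 1 (Or.inl rfl) p Q hQ hN u hu f hf h0 hlev hsurj _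
        (p_Afin_VH b Q hB x hxQ f hb ht) y hyQ hy (by rw [e1]; exact h)
  · rcases H3 u.2.2 with h | h
    · obtain ⟨f, hf, h0, hb, ht, hlev, hsurj, hho⟩ := p_frH b 1 x (Or.inl rfl) hx
      exact p_Afin_b hNG b 1 (Or.inl rfl) p Q hQ hN u hu f hf h0 hlev hsurj hho _
        (p_Afin_VH b Q hB x hxQ f hb ht) y hyQ hy (by rw [e1]; exact h)
    · obtain ⟨f, hf, h0, hb, ht, hlev, hsurj, hho⟩ := p_frH b (-1) y (Or.inr rfl)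
        (by rw [neg_neg]; exact hy)
      exact p_Afin_b hNG b (-1) (Or.inr rfl) p Q hQ hN u hu f hf h0 hlev hsurj hho _
        (p_Afin_VH b Q hB y hyQ f hb ht) x hxQ hx (by rw [e2]; exact h)

end Pool.Agent.Lib.MP_0bc52e_nt.G
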