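import Pool.Agent.Lib.MP_0bc52e_nt.K.Stm
import Pool.Agent.Lib.MP_0bc52e_nt.T.StmN

/-!
# Classes of polytopes with a side condition (MP_0bc52e_nt)

`Sc NG PP` is the class of the polytopes of `PP` that satisfy `NG`, for a property `NG` invariant under frames.
-/

namespace Pool.Agent.Lib.MP_0bc52e_nt.G

open Pool.Agent.Lib.MP_0bc52e_nt.LC Pool.Agent.Lib.MP_0bc52e_nt.T Pool.Agent.Lib.MP_0bc52e_nt.R
  Pool.Agent.Lib.MP_0bc52e_nt.K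

/-- The side condition is invariant under frames. -/
def FrI (NG : Set (ℝ × ℝ × ℝ) → Prop) : Prop := ∀ f, IsFr f → ∀ Q, NG Q → NG (f ⁻¹' Q)

/-- The class `PP` with the side condition `NG`. -/
def Sc (NG PP : Set (ℝ × ℝ × ℝ) → Prop) (Q : Set (ℝ × ℝ × ℝ)) : Prop := PP Q ∧ NG Q

/-- Everything that the certificates say about the modulus `p`, with the side condition. -/
def DeadG (NG : Set (ℝ × ℝ × ℝ) → Prop) (p : ℕ) : Prop :=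
  (∀ R ∈ Theta, ∀ u, Dd (Sc NG PP0) p (R.map toP) u) ∧ (∀ R ∈ Beta, ∀ u, Dd (Sc NG PP0) p (R.map toP) u) ∧
  ∀ b : Fin 3, (∀ r, Sd (Sc NG PP1) p (VU b) r ∨ Sd (Sc NG PP1) p (VU b) (-r)) ∧
    (∀ r, Sd (Sc NG (PPh b)) p (VU b) r ∨ Sd (Sc NG PP1) p (VH b) (-r)) ∧
    (∀ r, Sd (Sc NG (PPh b)) p (VH b) r ∨ Sd (Sc NG (PPh b)) p (VH b) (-r))

lemma cls_Sc {NG PP : Set (ℝ × ℝ × ℝ) → Prop} (h : Cls PP) : Cls (Sc NG PP) := fun Q hQ => h Q hQ.1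

lemma cell_Sc {NG PP : Set (ℝ × ℝ × ℝ) → Prop} {V : List P3} {cells : List (List F4)}
    (h : CellOK PP V cells) : CellOK (Sc NG PP) V cells :=
  fun F hF x N hN hf Q hQ hV => h F hF x N hN hf Q hQ.1 hV

lemma fam_Sc {NG PP : Set (ℝ × ℝ × ℝ) → Prop} {ofams : List (List Fam)} (h : FamOK PP ofams) :
    FamOK (Sc NG PP) ofams := fun fs hfs Q hQ => h fs hfs Q hQ.1

lemma dd_Sc {NG PP : Set (ℝ × ℝ × ℝ) → Prop} {p : ℤ} {V : List P3} {u : ℤ × ℤ × ℤ}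
    (h : Dd PP p V u) : Dd (Sc NG PP) p V u := fun Q hQ hV => h Q hQ.1 hV

end Pool.Agent.Lib.MP_0bc52e_nt.G
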